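import Pool.Agent.helper62.VN.SpecG

/-!
# MP_07c750 (QUE), project VN, block 5, row GPH: the data `XD D` satisfy `PH`
-/

set_option autoImplicit false

open scoped MatrixGroups ContDiff Topology UpperHalfPlane
open UpperHalfPlane MeasureTheory Filter Set

namespace Pool.Agent.VNE

open Pool.Agent.RS Pool.Agent.VQE
open Pool.Agent.VQ (Dyn rho kap n1 n2 hess Ug TF)
open Pool.Agent.VN (PotN OKN Kg)

noncomputable section

/-- bounded and Lipschitz values -/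
def GPH_L (C N x x' : ℝ) : Prop := |x| ≤ C ∧ |x'| ≤ C ∧ |x' - x| ≤ C * N

theorem GPH_mono {C C' N x x' : ℝ} (hN : 0 ≤ N) (h : GPH_L C N x x') (hC : C ≤ C') : GPH_L C' N x x' :=
  ⟨h.1.trans hC, h.2.1.trans hC, h.2.2.trans (mul_le_mul_of_nonneg_right hC hN)⟩

theorem GPH_add {C C' N x x' y y' : ℝ} (h : GPH_L C N x x') (h' : GPH_L C' N y y') : GPH_L (C + C') N (x + y) (x' + y') := by
  refine ⟨(abs_add_le _ _).trans (add_le_add h.1 h'.1), (abs_add_le _ _).trans (add_le_add h.2.1 h'.2.1), ?_⟩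
  have e : x' + y' - (x + y) = (x' - x) + (y' - y) := by ring
  rw [e]
  refine (abs_add_le _ _).trans ?_
  have := add_le_add h.2.2 h'.2.2
  linarith

theorem GPH_smul {C N x x' : ℝ} (a : ℝ) (ha : |a| ≤ 1) (h : GPH_L C N x x') : GPH_L C N (a * x) (a * x') := by
  have key : ∀ y : ℝ, |a * y| ≤ |y| := by
    intro y
    rw [abs_mul]
    exact mul_le_of_le_one_left (abs_nonneg y) ha
  refine ⟨(key x).trans h.1, (key x').trans h.2.1, ?_⟩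
  rw [← mul_sub]
  exact (key _).trans h.2.2

theorem GPH_mul {C C' N x x' y y' : ℝ} (hN : 0 ≤ N) (h : GPH_L C N x x') (h' : GPH_L C' N y y') : GPH_L (2 * C * C') N (x * y) (x' * y') := by
  have hC : 0 ≤ C := (abs_nonneg _).trans h.1
  have hC' : 0 ≤ C' := (abs_nonneg _).trans h'.1
  have hCC : 0 ≤ C * C' := mul_nonneg hC hC'
  refine ⟨?_, ?_, ?_⟩
  · rw [abs_mul]
    have := mul_le_mul h.1 h'.1 (abs_nonneg _) hC
    linarith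
  · rw [abs_mul]
    have := mul_le_mul h.2.1 h'.2.1 (abs_nonneg _) hC
    linarith
  · have e : x' * y' - x * y = x' * (y' - y) + (x' - x) * y := by ring
    rw [e]
    refine (abs_add_le _ _).trans ?_
    rw [abs_mul, abs_mul]
    have h1 := mul_le_mul h.2.1 h'.2.2 (abs_nonneg _) hC
    have h2 := mul_le_mul h.2.2 h'.1 (abs_nonneg _) (mul_nonneg hC hN)
    nlinarith [h1, h2]

theorem GPH_inv {A N x x' : ℝ} (hA : 1 ≤ A) (hN : 0 ≤ N) (h1 : 1 / A ≤ x) (h2 : 1 / A ≤ x') (h : |x' - x| ≤ A * N) :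
    GPH_L (A ^ 3) N x⁻¹ x'⁻¹ := by
  have hA0 : 0 < A := by linarith
  have hx : 0 < x := lt_of_lt_of_le (by positivity) h1
  have hx' : 0 < x' := lt_of_lt_of_le (by positivity) h2
  have b1 : x⁻¹ ≤ A := by
    rw [inv_le_comm₀ hx hA0, ← one_div]
    exact h1
  have b2 : x'⁻¹ ≤ A := by
    rw [inv_le_comm₀ hx' hA0, ← one_div]
    exact h2
  have hA3 : A ≤ A ^ 3 := by
    calc A = A ^ 1 := (pow_one A).symm
      _ ≤ A ^ 3 := pow_le_pow_right₀ hA (by norm_num)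
  have p1 : 0 < x⁻¹ := inv_pos.2 hx
  have p2 : 0 < x'⁻¹ := inv_pos.2 hx'
  refine ⟨?_, ?_, ?_⟩
  · rw [abs_of_pos p1]
    exact b1.trans hA3
  · rw [abs_of_pos p2]
    exact b2.trans hA3
  · have e : x'⁻¹ - x⁻¹ = (x - x') * (x⁻¹ * x'⁻¹) := by
      field_simp
    rw [e, abs_mul, abs_sub_comm, abs_of_pos (mul_pos p1 p2)]
    calc |x' - x| * (x⁻¹ * x'⁻¹) ≤ (A * N) * (A * A) :=
          mul_le_mul h (mul_le_mul b1 b2 p2.le hA0.le) (mul_pos p1 p2).le (mul_nonneg hA0.le hN)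
      _ = A ^ 3 * N := by ring

theorem GPH_nm (D : SL(2, ℝ)) : 0 ≤ nm D := by
  unfold nm
  exact le_max_of_le_left (le_max_of_le_left (abs_nonneg _))

theorem GPH_TL {A A' r r' : ℝ} {φ : ℝ → ℝ → ℝ} {φ0 α β : ℝ} (h : TL A r φ φ0 α β) (hA : A ≤ A') (hr : r' ≤ r) : TL A' r' φ φ0 α β := by
  refine ⟨h.v0, ⟨h.bd.1.trans hA, h.bd.2.1.trans hA, h.bd.2.2.trans hA⟩, ?_⟩
  intro b c b' c' hb hc hb' hc'
  refine (h.tl b c b' c' (hb.trans hr) (hc.trans hr) (hb'.trans hr) (hc'.trans hr)).trans ?_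
  have e1 : 0 ≤ |b| + |c| + |b'| + |c'| := by positivity
  have e2 : 0 ≤ |b - b'| + |c - c'| := by positivity
  exact mul_le_mul_of_nonneg_right (mul_le_mul_of_nonneg_right hA e1) e2

/-- the coefficients as polynomials in `n1, n2, h00, h11, 1/ρ` -/
theorem GPH_coef (D : Dyn) (g : SL(2, ℝ)) (h : 0 < rho D.U 0 g) :
    (XD D).q g = -(1 / 4) * (n2 D.U g * (rho D.U 0 g)⁻¹) ∧
    (XD D).m g = (1 / 2) * (n1 D.U g * ((rho D.U 0 g)⁻¹ * (rho D.U 0 g)⁻¹)) ∧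
    (XD D).m1 g = (1 / 2) * (hess D.U g 0 0 * (rho D.U 0 g)⁻¹) +
      ((1 / 4) * ((n2 D.U g * n2 D.U g) * ((rho D.U 0 g)⁻¹ * ((rho D.U 0 g)⁻¹ * (rho D.U 0 g)⁻¹))) +
      -(1 / 2) * ((n1 D.U g * n1 D.U g) * ((rho D.U 0 g)⁻¹ * ((rho D.U 0 g)⁻¹ * (rho D.U 0 g)⁻¹)))) ∧
    (XD D).κ g = 1 + ((1 / 2) * ((hess D.U g 0 0 + hess D.U g 1 1) * ((rho D.U 0 g)⁻¹ * (rho D.U 0 g)⁻¹)) +
      -(1 / 2) * ((n1 D.U g * n1 D.U g + n2 D.U g * n2 D.U g) * (((rho D.U 0 g)⁻¹ * (rho D.U 0 g)⁻¹) * ((rho D.U 0 g)⁻¹ * (rho D.U 0 g)⁻¹)))) := by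
  have h0 : rho D.U 0 g ≠ 0 := h.ne'
  refine ⟨?_, ?_, ?_, ?_⟩
  · show -(kap D.U 0 g) / 2 = _
    unfold kap
    field_simp
    ring
  · show n1 D.U g / (2 * rho D.U 0 g ^ 2) = _
    field_simp
  · show hess D.U g 0 0 / (2 * rho D.U 0 g) + n2 D.U g ^ 2 / (4 * rho D.U 0 g ^ 3) - n1 D.U g ^ 2 / (2 * rho D.U 0 g ^ 3) = _
    field_simp
    ring
  · show -(rho D.U 0 g ^ 2 * Kg D.U 0 g) = _
    unfold Kg
    field_simp
    ring

/-- **GPH** -/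
theorem GPH_proof (h1 : GLP_stmt) (h2 : GTL_stmt) : GPH_stmt := by
  intro k hk
  obtain ⟨K0, hK0, H0⟩ := h1 k hk
  obtain ⟨K1, hK1, H1⟩ := h2 k hk
  obtain ⟨C, hCdef⟩ : ∃ C : ℝ, C = K0 ^ 3 := ⟨_, rfl⟩
  have hC1 : 1 ≤ C := by rw [hCdef]; exact one_le_pow₀ hK0
  have hK0C : K0 ≤ C := by
    rw [hCdef]
    calc K0 = K0 ^ 1 := (pow_one K0).symm
      _ ≤ K0 ^ 3 := pow_le_pow_right₀ hK0 (by norm_num)
  have c1 : C ≤ C ^ 6 := by
    calc C = C ^ 1 := (pow_one C).symm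
      _ ≤ C ^ 6 := pow_le_pow_right₀ hC1 (by norm_num)
  have c2 : C ^ 2 ≤ C ^ 6 := pow_le_pow_right₀ hC1 (by norm_num)
  have c3 : C ^ 3 ≤ C ^ 6 := pow_le_pow_right₀ hC1 (by norm_num)
  have c5 : C ^ 5 ≤ C ^ 6 := pow_le_pow_right₀ hC1 (by norm_num)
  have c0 : 1 ≤ C ^ 6 := one_le_pow₀ hC1
  obtain ⟨K, hKdef⟩ : ∃ K : ℝ, K = 300 * C ^ 6 + K1 + 1 / (8 * k ^ 2) := ⟨_, rfl⟩
  have hk2 : 0 < 1 / (8 * k ^ 2) := by positivity
  have hKa : 300 * C ^ 6 ≤ K := by rw [hKdef]; linarith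
  have hKb : K1 ≤ K := by rw [hKdef]; linarith
  have hKc : 1 / (8 * k ^ 2) ≤ K := by rw [hKdef]; linarith
  have hKpos : 0 < K := by linarith
  have hK1' : 1 ≤ K := by linarith
  have hKK0 : K0 ≤ K := by linarith
  refine ⟨K, hK1', ?_⟩
  intro Γ B D hD
  have G0 := fun g E => H0 Γ B D.U hD g E
  have G1 := fun g => H1 Γ B D.U hD g
  have hinv : 1 / K ≤ 1 / K0 := one_div_le_one_div_of_le (by linarith) hKK0
  have hinv1 : 1 / K ≤ 1 / K1 := one_div_le_one_div_of_le (by linarith) hKb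
  have hpos : ∀ g, 0 < rho D.U 0 g := fun g => lt_of_lt_of_le (by positivity) (G0 g 1).1
  -- all bounds
  have key : ∀ g E : SL(2, ℝ), GPH_L K (nm E) ((XD D).q g) ((XD D).q (g * E)) ∧ GPH_L K (nm E) ((XD D).m g) ((XD D).m (g * E)) ∧
      GPH_L K (nm E) ((XD D).m1 g) ((XD D).m1 (g * E)) ∧ GPH_L K (nm E) ((XD D).κ g) ((XD D).κ (g * E)) := by
    intro g E
    have hN := GPH_nm E
    obtain ⟨a1, a2, a3, a4, a5, a6, a7, a8, a9, a10, a11⟩ := G0 g E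
    obtain ⟨b1, b2, b3, b4, b5, b6, _⟩ := G0 (g * E) 1
    have Ln1 : GPH_L C (nm E) (n1 D.U g) (n1 D.U (g * E)) := GPH_mono hN ⟨a3, b3, a8⟩ hK0C
    have Ln2 : GPH_L C (nm E) (n2 D.U g) (n2 D.U (g * E)) := GPH_mono hN ⟨a4, b4, a9⟩ hK0C
    have Lh0 : GPH_L C (nm E) (hess D.U g 0 0) (hess D.U (g * E) 0 0) := GPH_mono hN ⟨a5, b5, a10⟩ hK0C
    have Lh1 : GPH_L C (nm E) (hess D.U g 1 1) (hess D.U (g * E) 1 1) := GPH_mono hN ⟨a6, b6, a11⟩ hK0C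
    have Lv : GPH_L C (nm E) (rho D.U 0 g)⁻¹ (rho D.U 0 (g * E))⁻¹ := by
      have := GPH_inv hK0 hN a1 b1 a7
      rw [← hCdef] at this
      exact this
    have Lv2 := GPH_mul hN Lv Lv
    have Lv3 := GPH_mul hN Lv Lv2
    have Lv4 := GPH_mul hN Lv2 Lv2
    have Ln11 := GPH_mul hN Ln1 Ln1
    have Ln22 := GPH_mul hN Ln2 Ln2
    have Lone : GPH_L 1 (nm E) 1 1 := ⟨by simp, by simp, by simpa using hN⟩
    obtain ⟨e1, e2, e3, e4⟩ := GPH_coef D g (hpos g)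
    obtain ⟨f1, f2, f3, f4⟩ := GPH_coef D (g * E) (hpos _)
    rw [e1, e2, e3, e4, f1, f2, f3, f4]
    have s2 : |(1 / 2 : ℝ)| ≤ 1 := by rw [abs_of_pos (by norm_num)]; norm_num
    have s4 : |(1 / 4 : ℝ)| ≤ 1 := by rw [abs_of_pos (by norm_num)]; norm_num
    have s2' : |-(1 / 2 : ℝ)| ≤ 1 := by rw [abs_neg]; exact s2
    have s4' : |-(1 / 4 : ℝ)| ≤ 1 := by rw [abs_neg]; exact s4
    refine ⟨?_, ?_, ?_, ?_⟩
    · refine GPH_mono hN (GPH_smul _ s4' (GPH_mul hN Ln2 Lv)) ?_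
      nlinarith [c2]
    · refine GPH_mono hN (GPH_smul _ s2 (GPH_mul hN Ln1 Lv2)) ?_
      nlinarith [c3]
    · refine GPH_mono hN (GPH_add (GPH_smul _ s2 (GPH_mul hN Lh0 Lv)) (GPH_add (GPH_smul _ s4 (GPH_mul hN Ln22 Lv3)) (GPH_smul _ s2' (GPH_mul hN Ln11 Lv3)))) ?_
      have e : 2 * C * C + (2 * (2 * C * C) * (2 * C * (2 * C * C)) + 2 * (2 * C * C) * (2 * C * (2 * C * C))) = 2 * C ^ 2 + 32 * C ^ 5 := by ring
      rw [e]
      linarith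
    · refine GPH_mono hN (GPH_add Lone (GPH_add (GPH_smul _ s2 (GPH_mul hN (GPH_add Lh0 Lh1) Lv2)) (GPH_smul _ s2' (GPH_mul hN (GPH_add Ln11 Ln22) Lv4)))) ?_
      have e : 1 + (2 * (C + C) * (2 * C * C) + 2 * (2 * C * C + 2 * C * C) * (2 * (2 * C * C) * (2 * C * C))) = 1 + 8 * C ^ 3 + 64 * C ^ 6 := by ring
      rw [e]
      linarith
  refine ⟨fun g => -(n2 D.U g / (2 * rho D.U 0 g)), fun g => hess D.U g 1 1 / (4 * rho D.U 0 g) - n2 D.U g ^ 2 / (8 * rho D.U 0 g ^ 3),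
    fun g => n1 D.U g / (4 * rho D.U 0 g), ?_⟩
  refine ⟨?_, ?_, ?_, ?_, ?_, ?_, ?_, ?_, ?_⟩
  · intro g
    exact ⟨hinv.trans (G0 g 1).1, (G0 g 1).2.1.trans hKK0⟩
  · intro g
    obtain ⟨k1, k2, k3, _⟩ := key g 1
    exact ⟨k1.1, k2.1, k3.1⟩
  · intro g
    refine ⟨?_, (le_abs_self _).trans (key g 1).2.2.2.1⟩
    have n1' := hD.neg 0 g (by simpa using hD.kpos.1.le)
    have hU : 8 * k ≤ rho D.U 0 g ^ 2 := by
      unfold rho
      have hlo := hD.lo (g • I)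
      rw [Real.sq_sqrt (by linarith)]
      linarith
    have hκ : 8 * k ^ 2 ≤ (XD D).κ g := by
      show 8 * k ^ 2 ≤ -(rho D.U 0 g ^ 2 * Kg D.U 0 g)
      have hr : 0 ≤ rho D.U 0 g ^ 2 := sq_nonneg _
      nlinarith [mul_nonneg hr (by linarith : (0 : ℝ) ≤ -k - Kg D.U 0 g), mul_nonneg (by linarith : (0 : ℝ) ≤ rho D.U 0 g ^ 2 - 8 * k) hk.le]
    refine le_trans ?_ hκ
    have h8 : 0 < 8 * k ^ 2 := by positivity
    rw [one_div_le hKpos h8]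
    exact hKc
  · intro g E
    obtain ⟨k1, k2, k3, k4⟩ := key g E
    refine ⟨?_, k1.2.2, k2.2.2, k3.2.2, k4.2.2⟩
    refine ((G0 g E).2.2.2.2.2.2.1).trans ?_
    exact mul_le_mul_of_nonneg_right hKK0 (GPH_nm E)
  · intro g E E' hE'
    obtain ⟨q1, q2⟩ := (G1 g).2.2 E E' (hE'.trans hinv1)
    have m1 : K1 * nm E' * nm E ≤ K * nm E' * nm E :=
      mul_le_mul_of_nonneg_right (mul_le_mul_of_nonneg_right hKb (GPH_nm E')) (GPH_nm E)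
    exact ⟨q1.trans m1, q2.trans m1⟩
  · intro g
    exact GPH_TL (G1 g).1 hKb hinv1
  · intro g
    exact GPH_TL (G1 g).2.1 hKb hinv1
  · intro g
    have h0 : rho D.U 0 g ≠ 0 := (hpos g).ne'
    show n1 D.U g / (2 * rho D.U 0 g ^ 2) * rho D.U 0 g = 2 * (n1 D.U g / (4 * rho D.U 0 g))
    field_simp
    ring
  · intro g
    have h0 : rho D.U 0 g ≠ 0 := (hpos g).ne'
    obtain ⟨e1, e2, e3, e4⟩ := GPH_coef D g (hpos g)
    rw [e1, e3, e4]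
    show -rho D.U 0 g - 2 * (hess D.U g 1 1 / (4 * rho D.U 0 g) - n2 D.U g ^ 2 / (8 * rho D.U 0 g ^ 3)) +
      2 * (-(1 / 4) * (n2 D.U g * (rho D.U 0 g)⁻¹)) * (-(n2 D.U g / (2 * rho D.U 0 g)) + 2 * (-(1 / 4) * (n2 D.U g * (rho D.U 0 g)⁻¹))) / rho D.U 0 g - _ + _ * rho D.U 0 g = 0
    field_simp
    ring

end

end Pool.Agent.VNE
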